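import Pool.Agent.helper32.EXC.Spec11

set_option autoImplicit false

open Finset

namespace Pool.Agent.EXC

theorem T11LA8_sum {n : ℕ} (C : Matrix (Fin n) (Fin n) ℤ) [IsC C] {F : Type} [Field F] (a : Lm C F) (t : F)
    {m : ℕ} (v : Fin m → F) (w : Fin m → Lm C F) :
    xe C a t (∑ i, v i • w i) = ∑ i, v i • xe C a t (w i) := by
  have hadd : ∀ x y : Lm C F, xe C a t (x + y) = xe C a t x + xe C a t y := by
    intro x y
    unfold xe
    rw [br_add_right, fm_add_right, smul_add, mul_add, add_smul]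
    abel
  have hsmul : ∀ (c : F) (x : Lm C F), xe C a t (c • x) = c • xe C a t x := by
    intro c x
    unfold xe
    rw [br_smul_right, fm_smul_right, smul_add, smul_add, smul_smul, smul_smul, smul_smul, mul_comm t c]
    congr 2
    ring
  let L : Lm C F →ₗ[F] Lm C F :=
    { toFun := xe C a t
      map_add' := hadd
      map_smul' := fun c x => hsmul c x }
  have h : L (∑ i, v i • w i) = ∑ i, v i • L (w i) := by
    rw [map_sum]
    exact Finset.sum_congr rfl fun i _ => map_smul L _ _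
  exact h

/-- pure linear algebra -/
theorem T11LA8_lin {F M : Type} [Field F] [AddCommGroup M] [Module F M] (e : Fin 14 → M) (v : Fin 14 → F)
    (p1 j1 p2 j2 : Fin 14) (a b : F) :
    (∑ i, v i • (e i + (if i = p1 then a • e j1 else 0) + (if i = p2 then b • e j2 else 0))) =
      ∑ j, (v j + (if j = j1 then a * v p1 else 0) + (if j = j2 then b * v p2 else 0)) • e j := by
  simp only [smul_add, add_smul, Finset.sum_add_distrib, smul_ite, ite_smul, smul_zero, zero_smul,
    Finset.sum_ite_eq', Finset.mem_univ, if_true]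
  simp only [smul_smul, mul_comm]

theorem T11LA8 (hACT : ACT_stmt) : T11LA8_stmt := by
  intro _ F _ k t v
  have hL := hACT 8 CartanMatrix.E₈ F (lt8 k) t (lt8_root k)
  have h1 : ∀ i : Fin 14, xe CartanMatrix.E₈ (E CartanMatrix.E₈ (lt8 k)) t (E CartanMatrix.E₈ (mu8 i)) =
      (E CartanMatrix.E₈ (mu8 i) + (if i = (ta8 k).1 then (t * ((ta8 k).2.2.1 : F)) • E CartanMatrix.E₈ (mu8 (ta8 k).2.1) else 0) +
        (if i = (ta8 k).2.2.2.1 then (t * ((ta8 k).2.2.2.2.2 : F)) • E CartanMatrix.E₈ (mu8 (ta8 k).2.2.2.2.1) else 0) :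
          Lm CartanMatrix.E₈ F) := by
    intro i
    rcases ta8_spec k i with ⟨e1, e2, e3, e4, e5⟩ | ⟨e1, e2, e3, e4, e5⟩ | ⟨e1, e2, e3⟩
    · rw [if_pos e1, if_neg e2, add_zero, hL.2.1 (mu8 i) (mu8_root i) e3, e4, e5]
    · rw [if_neg e2, if_pos e1, add_zero, hL.2.1 (mu8 i) (mu8_root i) e3, e4, e5]
    · rw [if_neg e1, if_neg e2, add_zero, add_zero, hL.1 (mu8 i) (mu8_root i) e3]
  unfold em8
  rw [T11LA8_sum]
  simp only [h1]
  exact T11LA8_lin (fun i => (E CartanMatrix.E₈ (mu8 i) : Lm CartanMatrix.E₈ F)) v (ta8 k).1 (ta8 k).2.1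
    (ta8 k).2.2.2.1 (ta8 k).2.2.2.2.1 (t * ((ta8 k).2.2.1 : F)) (t * ((ta8 k).2.2.2.2.2 : F))

end Pool.Agent.EXC
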